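import Pool.Agent.H39.GEN.Blow

/-!
# Cells: from the level function to the thresholds

If the level function `Lv P` is affine up to `ε X` on the cell of size `X` around `p = (Q₀, q₀)`,
with slopes `al` (row) and `be` (velocity depth), then the row `Q` is reached, respectively not
reached, at the radius exponent `a` on the window `w`, `a - w = q`, if `a` is above, respectively
below, the affine function. If `al > 0`, the threshold `P a w` is affine up to `2 ε X / al`, with
slope `lam = (1 - be) / al` in the radius and `gam = be / al` in the window.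
-/

set_option autoImplicit false

namespace Pool.STR

open Set Filter Topology Pool.LEV

variable {P : ℝ → ℝ → ℝ}

/-- The affine function of a cell. -/
noncomputable def cel (P : ℝ → ℝ → ℝ) (p : ℝ × ℝ) (al be : ℝ) (Q q : ℝ) : ℝ :=
  Lv P p + al * (Q - p.1) + be * (q - p.2)

theorem dist_le_of {p : ℝ × ℝ} {Q q X : ℝ} (h1 : |Q - p.1| ≤ X) (h2 : |q - p.2| ≤ X) :
    dist (Q, q) p ≤ X := by
  rw [Prod.dist_eq, Real.dist_eq, Real.dist_eq]
  exact max_le h1 h2

/-- **The row is reached** above the affine function. -/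
theorem cell_reach (hP : Law P) {ε X al be : ℝ} {p : ℝ × ℝ} (hA : Affn (Lv P) ε p X al be)
    {a w Q : ℝ} (hw : 0 ≤ w) (hwa : w ≤ a) (ha : a ≤ 1) (hQ0 : 0 ≤ Q) (hQ1 : Q ≤ 1)
    (hQ : |Q - p.1| ≤ X) (hq : |a - w - p.2| ≤ X)
    (h : cel P p al be Q (a - w) + ε * X < a) : Q ≤ P a w := by
  have h0 : (0 : ℝ) ≤ a - w := by linarith
  have h1 : a - w ≤ 1 := by linarith
  have h2 := (abs_le.1 (hA (Q, a - w) (dist_le_of hQ hq))).2
  rw [Lv_eq h0 h1 hQ0 hQ1] at h2
  have h3 : lev P Q (a - w) < a := by
    unfold cel at h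
    simp only at h2
    linarith
  have h4 := le_of_lev_lt hP h0 h1 h3 ha
  have h5 : a - (a - w) = w := by ring
  rwa [h5] at h4

/-- **The row is not reached** below the affine function. -/
theorem cell_miss {ε X al be : ℝ} {p : ℝ × ℝ} (hA : Affn (Lv P) ε p X al be)
    {a w Q : ℝ} (hw : 0 ≤ w) (hwa : w ≤ a) (ha : a ≤ 1) (hQ0 : 0 ≤ Q) (hQ1 : Q ≤ 1)
    (hQ : |Q - p.1| ≤ X) (hq : |a - w - p.2| ≤ X)
    (h : a < cel P p al be Q (a - w) - ε * X) : P a w < Q := by
  have h0 : (0 : ℝ) ≤ a - w := by linarith
  have h1 : a - w ≤ 1 := by linarith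
  have h2 := (abs_le.1 (hA (Q, a - w) (dist_le_of hQ hq))).1
  rw [Lv_eq h0 h1 hQ0 hQ1] at h2
  have h3 : a < lev P Q (a - w) := by
    unfold cel at h
    simp only at h2
    linarith
  have h4 := lt_of_lt_lev (P := P) (Q := Q) h1 (by linarith) h3
  have h5 : a - (a - w) = w := by ring
  rwa [h5] at h4

/-- **The threshold is affine** in a cell with a positive slope. -/
theorem cell_P (hP : Law P) {ε X al be : ℝ} {p : ℝ × ℝ} (hA : Affn (Lv P) ε p X al be)
    (hal : 0 < al) (h0 : X ≤ p.1) (h1 : p.1 + X ≤ 1)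
    {a w : ℝ} (hw : 0 ≤ w) (hwa : w ≤ a) (ha : a ≤ 1) (hq : |a - w - p.2| ≤ X) {η : ℝ}
    (hη : ε * X < al * η)
    (hd : |(a - Lv P p - be * (a - w - p.2)) / al| + η ≤ X) :
    |P a w - (p.1 + (a - Lv P p - be * (a - w - p.2)) / al)| ≤ η := by
  obtain ⟨t, ht⟩ : ∃ t, t = (a - Lv P p - be * (a - w - p.2)) / al := ⟨_, rfl⟩
  have ht' : al * t = a - Lv P p - be * (a - w - p.2) := by
    rw [ht]; field_simp
  rw [← ht] at hd ⊢
  have ht1 := neg_abs_le t
  have ht2 := le_abs_self t
  have hη0 : 0 ≤ |P a w - (p.1 + t)| := abs_nonneg _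
  rcases le_or_gt 0 η with hη1 | hη1
  · rw [abs_le]
    constructor
    · have := cell_reach hP hA (Q := p.1 + t - η) hw hwa ha (by linarith) (by linarith)
        (by rw [abs_le]; constructor <;> linarith) hq (by
          unfold cel
          have : al * (p.1 + t - η - p.1) = al * t - al * η := by ring
          rw [this, ht']
          linarith)
      linarith
    · have := cell_miss hA (Q := p.1 + t + η) hw hwa ha (by linarith) (by linarith)
        (by rw [abs_le]; constructor <;> linarith) hq (by
          unfold cel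
          have : al * (p.1 + t + η - p.1) = al * t + al * η := by ring
          rw [this, ht']
          linarith)
      linarith
  · exfalso
    have h2 := hA p (by
      rw [dist_self]
      by_contra hc
      push Not at hc
      have := abs_nonneg (a - w - p.2)
      linarith)
    simp only [sub_self, mul_zero, add_zero, abs_zero] at h2
    nlinarith

end Pool.STR
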