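import Pool.Agent.H78.LS.Cell

/-!
# Density lemmas for the rows and for the levels of a class

* `rate_le`: near a row where the rate is less than `1 - h`, all blocks are not full.
* `ae_level`: a null set of levels is avoided by almost all rows with a positive slope.
* `share`: if the `k`-th cost is monotone in the level and at most `q k`, where `∑ q k < ∞`, then
  at almost all levels the cost of the window of size `r k` is `o(r k)`.
-/

set_option autoImplicit false

namespace Pool.STR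

open MeasureTheory Set Filter Topology Pool.LEV
open scoped ENNReal

/-- Near a row with rate less than `1 - h`, the blocks are not full. -/
theorem rate_le {ρ : ℝ → ℝ} {Q h : ℝ} (hd : DifferentiableAt ℝ ρ Q) (h1 : deriv ρ Q ≤ 1 - h)
    {ε C : ℝ} (hε : 0 < ε) (hC : 0 ≤ C) : ∃ r₁ : ℝ, 0 < r₁ ∧ ∀ r : ℝ, 0 < r → r < r₁ →
      ∀ Q₁ Q₂ : ℝ, |Q₁ - Q| ≤ C * r → |Q₂ - Q| ≤ C * r → Q₁ ≤ Q₂ →
        ρ Q₂ - ρ Q₁ ≤ (1 - h) * (Q₂ - Q₁) + ε * r := by
  obtain ⟨η, hη⟩ : ∃ η, η = ε / (2 * (C + 1)) := ⟨_, rfl⟩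
  have hη0 : 0 < η := by rw [hη]; positivity
  have h2 := hd.hasDerivAt
  rw [hasDerivAt_iff_isLittleO] at h2
  have h3 := h2.def hη0
  obtain ⟨d, hd0, hd1⟩ := Metric.eventually_nhds_iff.1 h3
  refine ⟨d / (C + 1), by positivity, fun r hr0 hr Q₁ Q₂ hQ₁ hQ₂ h12 => ?_⟩
  rw [lt_div_iff₀ (by positivity)] at hr
  have k : ∀ y : ℝ, |y - Q| ≤ C * r → |ρ y - ρ Q - (y - Q) * deriv ρ Q| ≤ η * (C * r) := by
    intro y hy
    have h4 := hd1 (y := y) (by rw [Real.dist_eq]; nlinarith)
    rw [Real.norm_eq_abs, Real.norm_eq_abs, smul_eq_mul] at h4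
    exact h4.trans (mul_le_mul_of_nonneg_left hy hη0.le)
  have k1 := (abs_le.1 (k Q₁ hQ₁)).1
  have k2 := (abs_le.1 (k Q₂ hQ₂)).2
  have k3 : η * (C * r) ≤ ε / 2 * r := by
    have : η * (C + 1) = ε / 2 := by rw [hη]; field_simp
    nlinarith
  have k4 : (Q₂ - Q₁) * deriv ρ Q ≤ (Q₂ - Q₁) * (1 - h) :=
    mul_le_mul_of_nonneg_left h1 (by linarith)
  nlinarith

/-- **A null set of levels is avoided** by almost all rows with a positive slope. -/
theorem ae_level {g : ℝ → ℝ} (hg : Monotone g) {p : ℝ → Prop} (hp : ∀ᵐ a : ℝ, p a) :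
    ∀ᵐ Q : ℝ, DifferentiableAt ℝ g Q → 0 < deriv g Q → p (g Q) := by
  classical
  obtain ⟨E, hE⟩ : ∃ E : Set ℝ, E = toMeasurable volume {a | ¬ p a} := ⟨_, rfl⟩
  have hEm : MeasurableSet E := by rw [hE]; exact measurableSet_toMeasurable _ _
  have hE0 : volume E = 0 := by rw [hE, measure_toMeasurable]; exact hp
  have hEp : ∀ a, a ∉ E → p a := by
    intro a ha
    by_contra hc
    exact ha (hE ▸ subset_toMeasurable volume {a | ¬ p a} hc)
  have hn : ∀ n : ℕ, ∀ᵐ Q : ℝ, Q ∈ {x | DifferentiableAt ℝ g x ∧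
      1 / ((n : ℝ) + 1) < deriv g x} → g Q ∉ E := by
    intro n
    have he : (0 : ℝ) < 1 / ((n : ℝ) + 1) := by positivity
    have h1 := rows_le hg he (E.indicator 1)
    rw [lintegral_indicator_one hEm, hE0] at h1
    have h2 : ∫⁻ a in {x | DifferentiableAt ℝ g x ∧ 1 / ((n : ℝ) + 1) < deriv g x},
        E.indicator 1 (g a) = 0 := by
      rcases mul_eq_zero.1 (le_antisymm h1 zero_le) with h3 | h3
      · rw [ENNReal.ofReal_eq_zero] at h3
        linarith
      · exact h3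
    have h3 : Measurable fun a => E.indicator (1 : ℝ → ℝ≥0∞) (g a) :=
      (measurable_one.indicator hEm).comp hg.measurable
    rw [lintegral_eq_zero_iff h3] at h2
    have h4 : ∀ᵐ a ∂(volume.restrict {x | DifferentiableAt ℝ g x ∧
        1 / ((n : ℝ) + 1) < deriv g x}), g a ∉ E := by
      filter_upwards [h2] with a ha hc
      rw [indicator_of_mem hc] at ha
      exact one_ne_zero ha
    exact (ae_restrict_iff' (meas_pos g _)).1 h4
  filter_upwards [ae_all_iff.2 hn] with Q hQ h1 h2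
  obtain ⟨n, hn'⟩ := exists_nat_one_div_lt h2
  exact hEp _ (hQ n ⟨h1, hn'⟩)

/-- The mean of the increments of a bounded monotone function. -/
theorem incr {f : ℝ → ℝ} (hf : Monotone f) {M : ℝ} (h0 : ∀ x, 0 ≤ f x) (hM : ∀ x, f x ≤ M)
    {r : ℝ} (hr : 0 ≤ r) : ∫⁻ a in Ioo (0 : ℝ) 1, ENNReal.ofReal (f (a + r) - f (a - r)) ≤
      ENNReal.ofReal (2 * r * M) := by
  have hi : ∀ x y : ℝ, IntervalIntegrable f volume x y := fun x y => hf.intervalIntegrable
  have m1 : Monotone fun a => f (a + r) := fun x y h => hf (by linarith)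
  have m2 : Monotone fun a => f (a - r) := fun x y h => hf (by linarith)
  have e1 : ∫ a in (0 : ℝ)..1, (f (a + r) - f (a - r)) ≤ 2 * r * M := by
    rw [intervalIntegral.integral_sub m1.intervalIntegrable m2.intervalIntegrable,
      intervalIntegral.integral_comp_add_right, intervalIntegral.integral_comp_sub_right]
    have h1 := intervalIntegral.integral_add_adjacent_intervals (hi (0 + r) (1 - r))
      (hi (1 - r) (1 + r))
    have h2 := intervalIntegral.integral_add_adjacent_intervals (hi (0 - r) (0 + r))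
      (hi (0 + r) (1 - r))
    have h3 : ∫ x in (1 - r)..(1 + r), f x ≤ ∫ _ in (1 - r)..(1 + r), M :=
      intervalIntegral.integral_mono_on (by linarith) (hi _ _) (by simp) fun x _ => hM x
    have h4 : 0 ≤ ∫ x in (0 - r)..(0 + r), f x :=
      intervalIntegral.integral_nonneg (by linarith) fun x _ => h0 x
    rw [intervalIntegral.integral_const, smul_eq_mul] at h3
    rw [← h1, ← h2]
    linarith
  refine le_trans (le_of_eq ?_) (ENNReal.ofReal_le_ofReal e1)
  rw [intervalIntegral.integral_of_le zero_le_one, integral_Ioc_eq_integral_Ioo,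
    ofReal_integral_eq_lintegral_ofReal]
  · have := (m1.intervalIntegrable (μ := volume) (a := 0) (b := 1)).sub
      (m2.intervalIntegrable (μ := volume) (a := 0) (b := 1))
    exact (intervalIntegrable_iff_integrableOn_Ioo_of_le zero_le_one).1 this
  · exact Eventually.of_forall fun a => sub_nonneg.2 (hf (by linarith))

/-- **The share of a window.** If the `k`-th cost is monotone in the level and at most `M k`, and
`∑ M k < ∞`, then at almost all levels the cost of the window of radius `r k` is `o (r k)`. -/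
theorem share {f : ℕ → ℝ → ℝ} (hf : ∀ k, Monotone (f k)) {M r : ℕ → ℝ} (h0 : ∀ k x, 0 ≤ f k x)
    (hM : ∀ k x, f k x ≤ M k) (hr : ∀ k, 0 < r k) (hs : Summable M) :
    ∀ᵐ a : ℝ, a ∈ Ioo (0 : ℝ) 1 → ∀ ε : ℝ, 0 < ε → ∃ k₀ : ℕ, ∀ k ≥ k₀,
      f k (a + r k) - f k (a - r k) ≤ ε * r k := by
  obtain ⟨φ, hφ⟩ : ∃ φ : ℕ → ℝ → ℝ≥0∞, φ = fun k a =>
    ENNReal.ofReal (f k (a + r k) - f k (a - r k)) / ENNReal.ofReal (r k) := ⟨_, rfl⟩
  have hM0 : ∀ k, 0 ≤ M k := fun k => (h0 k 0).trans (hM k 0)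
  have hre : ∀ k, ENNReal.ofReal (r k) ≠ 0 := fun k => by
    rw [Ne, ENNReal.ofReal_eq_zero, not_le]
    exact hr k
  have hm : ∀ k, Measurable (φ k) := by
    intro k
    rw [hφ]
    refine Measurable.div_const (Measurable.ennreal_ofReal ?_) _
    exact ((hf k).measurable.comp (measurable_id.add_const _)).sub
      ((hf k).measurable.comp (measurable_id.sub_const _))
  have hi : ∀ k, ∫⁻ a in Ioo (0 : ℝ) 1, φ k a ≤ ENNReal.ofReal (2 * M k) := by
    intro k
    have h1 : ∫⁻ a in Ioo (0 : ℝ) 1, φ k a =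
        (∫⁻ a in Ioo (0 : ℝ) 1, ENNReal.ofReal (f k (a + r k) - f k (a - r k))) *
          (ENNReal.ofReal (r k))⁻¹ := by
      rw [hφ]
      simp only [div_eq_mul_inv]
      rw [lintegral_mul_const' _ _ (ENNReal.inv_ne_top.2 (hre k))]
    rw [h1]
    refine (mul_le_mul' (incr (hf k) (h0 k) (hM k) (hr k).le) le_rfl).trans (le_of_eq ?_)
    have h2 : 2 * r k * M k = 2 * M k * r k := by ring
    rw [h2, ENNReal.ofReal_mul (mul_nonneg two_pos.le (hM0 k)), mul_assoc,
      ENNReal.mul_inv_cancel (hre k) ENNReal.ofReal_ne_top, mul_one]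
  have hsum : ∫⁻ a in Ioo (0 : ℝ) 1, ∑' k, φ k a ≠ ⊤ := by
    rw [lintegral_tsum fun k => (hm k).aemeasurable]
    refine ne_top_of_le_ne_top ?_ (ENNReal.tsum_le_tsum hi)
    rw [← ENNReal.ofReal_tsum_of_nonneg (fun k => mul_nonneg two_pos.le (hM0 k))
      (hs.mul_left 2)]
    exact ENNReal.ofReal_ne_top
  have h1 := ae_lt_top (Measurable.tsum hm) hsum
  rw [ae_restrict_iff' measurableSet_Ioo] at h1
  filter_upwards [h1] with a ha haI ε hε
  have h2 := ENNReal.tendsto_atTop_zero_of_tsum_ne_top (ha haI).ne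
  obtain ⟨k₀, hk₀⟩ := eventually_atTop.1 ((tendsto_order.1 h2).2 _ (ENNReal.ofReal_pos.2 hε))
  refine ⟨k₀, fun k hk => ?_⟩
  have h3 := (hk₀ k hk).le
  rw [hφ] at h3
  simp only at h3
  rw [ENNReal.div_le_iff (hre k) ENNReal.ofReal_ne_top, ← ENNReal.ofReal_mul hε.le] at h3
  exact (ENNReal.ofReal_le_ofReal_iff (mul_nonneg hε.le (hr k).le)).1 h3

end Pool.STR
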