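import Pool.Agent.H78.LS.Dens

/-!
# Costs as thresholds

A number `θ w Q`, `0 ≤ θ ≤ M`, which decreases with `w` and with `Q`, is encoded as a threshold
`enc c M θ a w = min 1 (a + c (M - θ w a))`. So costs take part in the limits of thresholds.
`free_lim`: for limits of encoded costs with `∑ M k < ∞`, for almost every row `Q` with a positive
diagonal slope, all boxes of size `C r k` around `(Q, g Q)` have cost `o (r k)`.
-/

set_option autoImplicit false

namespace Pool.STR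

open MeasureTheory Set Filter Topology Pool.LEV
open scoped ENNReal

/-- The encoded cost. -/
noncomputable def enc (c M : ℝ) (θ : ℝ → ℝ → ℝ) (a w : ℝ) : ℝ := min 1 (a + c * (M - θ w a))

theorem enc_law {c M : ℝ} {θ : ℝ → ℝ → ℝ} (hc : 0 ≤ c)
    (h1 : ∀ w w' a, 0 ≤ w → w ≤ w' → w' ≤ a → a ≤ 1 → θ w' a ≤ θ w a)
    (h2 : ∀ w a a', 0 ≤ w → w ≤ a → a ≤ a' → a' ≤ 1 → θ w a' ≤ θ w a) : Law (enc c M θ) where
  mono_a a a' w h0 hwa haa ha := by
    unfold enc
    have h3 := mul_le_mul_of_nonneg_left (h2 w a a' h0 hwa haa ha) hc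
    refine min_le_min le_rfl ?_
    linarith only [haa, h3]
  mono_w a w w' h0 hww hwa ha := by
    unfold enc
    have h3 := mul_le_mul_of_nonneg_left (h1 w w' a h0 hww hwa ha) hc
    refine min_le_min le_rfl ?_
    linarith
  slope a w v h0 hwa hv hav := by
    unfold enc
    have h3 := mul_le_mul_of_nonneg_left (h2 w a (a + v) h0 hwa (by linarith) hav) hc
    refine le_min (min_le_left _ _) ?_
    refine (min_le_right _ _).trans ?_
    have h4 := min_le_right 1 (a + c * (M - θ w a))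
    linarith

theorem enc_le_one {c M : ℝ} {θ : ℝ → ℝ → ℝ} (a w : ℝ) : enc c M θ a w ≤ 1 := min_le_left _ _

theorem le_enc {c M : ℝ} {θ : ℝ → ℝ → ℝ} {a w : ℝ} (hc : 0 ≤ c) (h : θ w a ≤ M) (ha : a ≤ 1) :
    a ≤ enc c M θ a w := by
  refine le_min ha ?_
  have := mul_nonneg hc (sub_nonneg.2 h)
  linarith only [this]

theorem enc_le {c M : ℝ} {θ : ℝ → ℝ → ℝ} {a w : ℝ} (hc : 0 ≤ c) (h : 0 ≤ θ w a) :
    enc c M θ a w ≤ a + c * M := by
  refine (min_le_right _ _).trans ?_
  have := mul_nonneg hc h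
  linarith only [this]

/-- Decoding. -/
theorem enc_eq {c M : ℝ} {θ : ℝ → ℝ → ℝ} {a w : ℝ} (hc : 0 ≤ c) (h : 0 ≤ θ w a)
    (ha : a + c * M ≤ 1) : enc c M θ a w = a + c * (M - θ w a) := by
  refine min_eq_right ?_
  have := mul_nonneg hc h
  linarith only [ha, this]

/-- **The costs of the classes near the limit.** If the encoded cost is close to the limit
threshold `P` in the sense of Lévy, the differences of the costs in a box are bounded by the
differences of the limit in a slightly larger box. -/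
theorem cost_le {c M δ : ℝ} {θ : ℝ → ℝ → ℝ} {P : ℝ → ℝ → ℝ} (hc : 0 < c)
    (h0 : ∀ w a, 0 ≤ w → w ≤ a → a ≤ 1 → 0 ≤ θ w a)
    (hP : ∀ a w, 0 ≤ w → w ≤ a → a ≤ 1 →
      enc c M θ a w ≤ P (a + δ) (w + δ) ∧ P (a - δ) (w - δ) ≤ enc c M θ a w)
    {a w a' w' : ℝ} (hw : 0 ≤ w) (hwa : w ≤ a) (ha : a + c * M ≤ 1) (hw' : 0 ≤ w')
    (hwa' : w' ≤ a') (ha' : a' + c * M ≤ 1) (hM : 0 ≤ M) :
    c * (θ w a - θ w' a') ≤
      (P (a' + δ) (w' + δ) - (a' + δ)) - (P (a - δ) (w - δ) - (a - δ)) + 2 * δ := by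
  have hcM : 0 ≤ c * M := mul_nonneg hc.le hM
  obtain ⟨-, h1⟩ := hP a w hw hwa (by linarith only [ha, hcM])
  obtain ⟨h2, -⟩ := hP a' w' hw' hwa' (by linarith)
  rw [enc_eq hc.le (h0 w a hw hwa (by linarith)) ha] at h1
  rw [enc_eq hc.le (h0 w' a' hw' hwa' (by linarith only [ha', hcM])) ha'] at h2
  linarith only [h1, h2]

/-- **Boxes are cheap.** -/
theorem free_lim {P : ℕ → ℝ → ℝ → ℝ} (hP : ∀ k, Law (P k)) {c M r : ℕ → ℝ} (hc : ∀ k, 0 < c k)
    (hM : ∀ k, 0 ≤ M k) (hs : Summable M) (hcM : Tendsto (fun k => c k * M k) atTop (𝓝 0))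
    (lo : ∀ k a w, 0 ≤ w → w ≤ a → a ≤ 1 → a ≤ P k a w)
    (up : ∀ k a w, 0 ≤ w → w ≤ a → a ≤ 1 → P k a w ≤ a + c k * M k)
    (hr : ∀ k, 0 < r k) (hr0 : Tendsto r atTop (𝓝 0)) {g : ℝ → ℝ} (hg : Monotone g)
    (g0 : ∀ Q, 0 ≤ Q → Q ≤ 1 → 0 ≤ g Q ∧ g Q ≤ Q) :
    ∀ᵐ Q : ℝ, 0 < Q → Q < 1 → DifferentiableAt ℝ g Q → 0 < deriv g Q → ∀ C ε : ℝ, 0 < ε →
      ∃ k₀ : ℕ, ∀ k ≥ k₀, ∀ a w a' w' : ℝ, 0 ≤ w → w ≤ a → 0 ≤ w' → w' ≤ a' → a' ≤ 1 →
        Q - C * r k ≤ a → g Q - C * r k ≤ w → a ≤ Q + C * r k →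
        a' ≤ Q + C * r k → w' ≤ g Q + C * r k →
        (P k a' w' - a') - (P k a w - a) ≤ ε * (c k * r k) := by
  classical
  -- the costs along the path
  obtain ⟨E, hE⟩ : ∃ E : ℕ → ℝ → Set ℝ, E = fun k x =>
    {t | t = 0 ∨ ∃ Q : ℝ, 0 ≤ Q ∧ Q ≤ 1 ∧ Q ≤ x ∧ t = (P k Q (g Q) - Q) / c k} := ⟨_, rfl⟩
  have hEne : ∀ k x, (E k x).Nonempty := fun k x => ⟨0, by rw [hE]; exact Or.inl rfl⟩
  have hEM : ∀ k x t, t ∈ E k x → t ≤ M k := by
    rintro k x t ht
    rw [hE] at ht
    rcases ht with ht | ⟨Q, h1, h2, -, ht⟩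
    · rw [ht]; exact hM k
    · rw [ht, div_le_iff₀ (hc k)]
      have := up k Q (g Q) (g0 Q h1 h2).1 (g0 Q h1 h2).2 h2
      linarith only [this]
  have hEb : ∀ k x, BddAbove (E k x) := fun k x => ⟨M k, fun t ht => hEM k x t ht⟩
  have hmono : ∀ k, Monotone fun x => sSup (E k x) := by
    intro k x x' hx
    refine csSup_le_csSup (hEb k x') (hEne k x) ?_
    intro t ht
    rw [hE] at ht ⊢
    rcases ht with ht | ⟨Q, h1, h2, h3, ht⟩
    · exact Or.inl ht
    · exact Or.inr ⟨Q, h1, h2, h3.trans hx, ht⟩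
  have h2 : ∀ n : ℕ, ∀ᵐ a : ℝ, a ∈ Ioo (0 : ℝ) 1 → ∀ ε : ℝ, 0 < ε → ∃ k₀ : ℕ, ∀ k ≥ k₀,
      sSup (E k (a + ((n : ℝ) + 1) * r k)) - sSup (E k (a - ((n : ℝ) + 1) * r k)) ≤
        ε * (((n : ℝ) + 1) * r k) := fun n =>
    share (f := fun k x => sSup (E k x)) hmono (M := M) (r := fun k => ((n : ℝ) + 1) * r k)
      (fun k x => le_csSup (hEb k x) (by rw [hE]; exact Or.inl rfl))
      (fun k x => csSup_le (hEne k x) fun t ht => hEM k x t ht)
      (fun k => mul_pos (by positivity) (hr k)) hs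
  filter_upwards [ae_all_iff.2 h2] with Q hQ hQ0 hQ1 hd hd0 C ε hε
  exact by
   obtain ⟨C', hC'⟩ : ∃ C', C' = max (|C| + 1) (2 * (|C| + 1) / deriv g Q) := ⟨_, rfl⟩
   have hC1 : |C| + 1 ≤ C' := by rw [hC']; exact le_max_left _ _
   have hC2 : 2 * (|C| + 1) / deriv g Q ≤ C' := by rw [hC']; exact le_max_right _ _
   rw [div_le_iff₀ hd0] at hC2
   have hCC := le_abs_self C
   have hC0 : 0 ≤ |C| := abs_nonneg C
   obtain ⟨n, hn⟩ := exists_nat_ge C'
   obtain ⟨A, hA⟩ : ∃ A : ℝ, A = (n : ℝ) + 1 := ⟨_, rfl⟩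
   have hA1 : C' ≤ A := by rw [hA]; linarith only [hQ0, hQ1, hn]
   have hA0 : 0 < A := by linarith only [hQ0, hQ1, hC1, hC0, hn, hA]
   obtain ⟨k₁, hk₁⟩ := hQ n ⟨hQ0, hQ1⟩ (ε / A) (by positivity)
   rw [← hA] at hk₁
   -- the derivative
   have h3 := hd.hasDerivAt
   rw [hasDerivAt_iff_isLittleO] at h3
   have h4 := h3.def (c := deriv g Q / 2) (by positivity)
   obtain ⟨η, hη0, hη⟩ := Metric.eventually_nhds_iff.1 h4
   obtain ⟨μ, hμ⟩ : ∃ μ, μ = min (η / A) (min (Q / A) ((1 - Q) / 2 / A)) := ⟨_, rfl⟩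
   have hμ0 : 0 < μ := by
     rw [hμ]
     exact lt_min (by positivity) (lt_min (by positivity) (div_pos (by linarith only [hQ1]) hA0))
   obtain ⟨k₂, hk₂⟩ := eventually_atTop.1 (((tendsto_order.1 hr0).2 μ hμ0).and
     ((tendsto_order.1 hcM).2 ((1 - Q) / 2) (by linarith only [hQ1])))
   refine ⟨max k₁ k₂, fun k hk a w a' w' h0w hwa h0w' hwa' ha1' b1 b2 b5 b3 b4 => ?_⟩
   obtain ⟨hrμ, hcMk⟩ := hk₂ k ((le_max_right _ _).trans hk)
   have e1 : A * r k < η := by
     have : r k < η / A := hrμ.trans_le (by rw [hμ]; exact min_le_left _ _)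
     rw [lt_div_iff₀ hA0] at this
     linarith only [this]
   have e2 : A * r k < Q := by
     have : r k < Q / A := hrμ.trans_le (by
       rw [hμ]; exact (min_le_right _ _).trans (min_le_left _ _))
     rw [lt_div_iff₀ hA0] at this
     linarith only [this]
   exact by
    have e3 : A * r k < (1 - Q) / 2 := by
      have : r k < (1 - Q) / 2 / A := hrμ.trans_le (by
        rw [hμ]; exact (min_le_right _ _).trans (min_le_right _ _))
      rw [lt_div_iff₀ hA0] at this
      linarith only [this]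
    have hrk := hr k
    have hAr : 0 < A * r k := mul_pos hA0 hrk
    have hCr : C * r k ≤ A * r k :=
      mul_le_mul_of_nonneg_right (by linarith only [hC1, hCC, hn, hA, e2, e3, hAr]) hrk.le
    have hslope : (|C| + 1) * r k ≤ deriv g Q / 2 * (A * r k) := by
      have : (|C| + 1) ≤ deriv g Q / 2 * A := by nlinarith only [hC2, hQ0, hd0, hQ1, hn, hA]
      nlinarith only [hrk, this]
    have hCr' : C * r k ≤ deriv g Q / 2 * (A * r k) := by
      refine le_trans ?_ hslope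
      exact mul_le_mul_of_nonneg_right (by linarith only [hCC, e2, e3, hAr]) hrk.le
    -- the corners
    have c1 : g (Q - A * r k) ≤ g Q - C * r k := by
      have := hη (y := Q - A * r k) (by
        rw [Real.dist_eq]
        have : Q - A * r k - Q = -(A * r k) := by ring
        rw [this, abs_neg, abs_of_pos hAr]
        exact e1)
      rw [Real.norm_eq_abs, Real.norm_eq_abs, smul_eq_mul] at this
      have e : Q - A * r k - Q = -(A * r k) := by ring
      rw [e, abs_neg, abs_of_pos hAr] at this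
      have := (abs_le.1 this).2
      nlinarith only [hCr', this]
    have c2 : g Q + C * r k ≤ g (Q + A * r k) := by
      have := hη (y := Q + A * r k) (by
        rw [Real.dist_eq, add_sub_cancel_left, abs_of_pos hAr]
        exact e1)
      rw [Real.norm_eq_abs, Real.norm_eq_abs, smul_eq_mul, add_sub_cancel_left,
        abs_of_pos hAr] at this
      have := (abs_le.1 this).1
      nlinarith only [hCr', this]
    exact by
     obtain ⟨Q1, hQ1e⟩ : ∃ Q1, Q1 = Q - A * r k := ⟨_, rfl⟩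
     obtain ⟨Q2, hQ2e⟩ : ∃ Q2, Q2 = Q + A * r k := ⟨_, rfl⟩
     rw [← hQ1e] at c1
     rw [← hQ2e] at c2
     have hcM0 : 0 ≤ c k * M k := mul_nonneg (hc k).le (hM k)
     have q1 : 0 ≤ Q1 := by linarith only [e2, hQ1e]
     have q2 : Q2 ≤ 1 := by linarith only [e3, hAr, hQ2e]
     have q3 : Q2 + c k * M k < 1 := by linarith only [hcMk, e3, hQ2e]
     have hQ2' : 0 ≤ Q2 := by linarith only [e2, hAr, hQ2e]
     obtain ⟨g1, g1'⟩ := g0 Q1 q1 (by linarith only [e3, hAr, hQ1e])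
     obtain ⟨g2, g2'⟩ := g0 Q2 hQ2' q2
     -- monotonicity in the box
     have mono : ∀ a w a' w' : ℝ, 0 ≤ w → w ≤ a → w ≤ w' → a ≤ a' → w' ≤ a' → a' ≤ 1 →
         a' + c k * M k < 1 → P k a w - a ≤ P k a' w' - a' := by
       intro a w a' w' m1 m2 m3 m4 m5 m6 m7
       have s1 := (hP k).slope a w (a' - a) m1 m2 (by linarith only [m4]) (by linarith only [m6])
       have s2 : a + (a' - a) = a' := by ring
       rw [s2] at s1
       have s3 := (hP k).mono_w a' w w' m1 m3 m5 m6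
       have s4 := up k a' w' (m1.trans m3) m5 m6
       rcases min_le_iff.1 s1 with s5 | s5
       · linarith only [m7, s3, s4, s5]
       · linarith only [s3, s5]
     have k1 : P k a' w' - a' ≤ P k Q2 (g Q2) - Q2 := by
       refine mono a' w' Q2 (g Q2) h0w' hwa' ?_ ?_ g2' q2 q3
       · linarith only [b4, c2]
       · linarith only [b3, hCr, hQ2e]
     have k2 : P k Q2 (g Q2) - Q2 ≤ c k * sSup (E k Q2) := by
       have : (P k Q2 (g Q2) - Q2) / c k ≤ sSup (E k Q2) := by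
         refine le_csSup (hEb k _) ?_
         rw [hE]
         exact Or.inr ⟨Q2, hQ2', q2, le_rfl, rfl⟩
       rw [div_le_iff₀ (hc k)] at this
       linarith only [this]
     exact by
      have k3 : c k * sSup (E k Q1) ≤ P k Q1 (g Q1) - Q1 := by
        have : sSup (E k Q1) ≤ (P k Q1 (g Q1) - Q1) / c k := by
          refine csSup_le (hEne k _) ?_
          intro t ht
          rw [hE] at ht
          rcases ht with ht | ⟨R, r1, r2, r3, ht⟩
          · rw [ht]
            have := lo k Q1 (g Q1) g1 g1' (by linarith only [e3, hAr, hQ1e])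
            exact div_nonneg (by linarith only [this]) (hc k).le
          · rw [ht]
            refine div_le_div_of_nonneg_right ?_ (hc k).le
            exact mono R (g R) Q1 (g Q1) (g0 R r1 r2).1 (g0 R r1 r2).2 (hg r3) r3 g1' (by linarith only [e3, hAr, hQ1e])
              (by linarith only [hcMk, e3, hAr, hQ1e])
        have h5 := mul_le_mul_of_nonneg_left this (hc k).le
        have h6 : c k * ((P k Q1 (g Q1) - Q1) / c k) = P k Q1 (g Q1) - Q1 := by
          have := (hc k).ne'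
          field_simp
        linarith only [h5, h6]
      have hres := hk₁ k ((le_max_left _ _).trans hk)
      rw [← hQ1e, ← hQ2e] at hres
      have k4 : P k Q1 (g Q1) - Q1 ≤ P k a w - a := by
        refine mono Q1 (g Q1) a w g1 g1' ?_ ?_ hwa (by linarith only [b5, e3, hAr, hCr]) (by linarith only [b5, hcMk, e3, hCr])
        · linarith only [b2, c1]
        · linarith only [b1, hCr, hQ1e]
      have k5 : ε / A * (A * r k) = ε * r k := by field_simp
      rw [k5] at hres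
      have k6 := mul_le_mul_of_nonneg_left hres (hc k).le
      have k7 : c k * (ε * r k) = ε * (c k * r k) := by ring
      rw [k7, mul_sub] at k6
      linarith only [k1, k2, k3, k4, k6]

end Pool.STR
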