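import Pool.Agent.H78.LS.Dens
import Pool.Agent.H92.GN.Num
import Pool.Agent.H2.GEN.Act

/-!
# The share of a cost in a window of records

For countably many costs `u k`, with at most `exp (M k J)` values, `∑ M k < ∞`, and records which
are increasing in the level `w`, the entropy of `u k` given the record of level `w` is a number
`θ k w` of a subclass, and for almost every level `a` the cost of the window
`[a - r k, a + r k]` is `o (r k)`.
-/

set_option autoImplicit false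

namespace Pool.RCD

open Finset Real
open Pool.Agent.H49.Ent Pool.Agent.H32.Dense Pool.STK Pool.KA Pool.KSAT Pool.K2S Pool.PB Pool.S6C
  Pool.GEN

variable {m : ℕ}

section one

variable {α β υ γ : ∀ J : ℕ, Fam m J → Type} {f : ∀ (J : ℕ) (F : Fam m J), F.Ω → α J F}
    {g : ∀ (J : ℕ) (F : Fam m J), F.Ω → β J F} {u : ∀ (J : ℕ) (F : Fam m J), F.Ω → υ J F}
    {y : ∀ (J : ℕ) (F : Fam m J), F.Ω → γ J F}

theorem qCnd.up' {s : ℝ} (hs : 0 < s) {J : ℕ} (hJ : 1 ≤ J) {F : Fam m J}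
    {A : F.Ω → Prop} (hA : 0 < Pe F.p A) : ¬ qCnd f g u y s J F A := by
  rintro ⟨V, z, -, h2⟩
  have h0 : cset F.p (u J F) A ≠ ∅ := by
    intro h
    have h1 := one_le_cnt F.isLaw (u J F) hA
    rw [← cset_card, h, card_empty] at h1
    omega
  obtain ⟨x, hx⟩ := Finset.nonempty_iff_ne_empty.2 h0
  obtain ⟨ω, h1, h3, -⟩ := of_mem_cset hx
  have h4 := h2 (z ω, y J F ω)
  have h5 : (1 : ℝ) ≤ cnt F.p (u J F) (fun ω' => A ω' ∧ (z ω', y J F ω') = (z ω, y J F ω)) := by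
    rw [← cset_card]
    have : 0 < (cset F.p (u J F) fun ω' => A ω' ∧ (z ω', y J F ω') = (z ω, y J F ω)).card :=
      card_pos.2 ⟨u J F ω, mem_cset (u J F) h1 ⟨h3, rfl⟩⟩
    exact_mod_cast this
  have h6 : Real.exp (-(s * (J : ℝ))) < 1 := by
    rw [Real.exp_lt_one_iff]
    have : (1 : ℝ) ≤ J := by exact_mod_cast hJ
    have : 0 < s * (J : ℝ) := by positivity
    linarith
  linarith

/-- Two incompatible properties which hold on the base of a nonempty class. -/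
theorem bas_false {S : PCl m} (hS : S.Ne) {Q : Stat m} (h1 : Bas S Q)
    (h2 : Bas S (fun J F A => ¬ Q J F A)) : False := by
  obtain ⟨τ₁, hτ₁, J₁, k1⟩ := h1
  obtain ⟨τ₂, hτ₂, J₂, k2⟩ := h2
  obtain ⟨J, hJ, F, A, hA⟩ := hS (min τ₁ τ₂) (lt_min hτ₁ hτ₂) (max J₁ J₂)
  exact k2 J ((le_max_right _ _).trans hJ) F A (S.mono (min_le_right _ _) hA)
    (k1 J ((le_max_left _ _).trans hJ) F A (S.mono (min_le_left _ _) hA))

/-- Numbers are nonnegative. -/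
theorem CNum.nonneg {S : PCl m} (hS : S.Ne)
    (hpos : ∀ (τ : ℝ) (J : ℕ) (F : Fam m J) (A : F.Ω → Prop), S.St τ J F A → 0 < Pe F.p A)
    {θ : ℝ} (hθ : CNum S f g u y θ) : 0 ≤ θ := by
  by_contra hcon
  push Not at hcon
  have h1 := hθ.at' (-θ / 2) (by linarith)
  refine bas_false hS h1 ⟨1, one_pos, 1, fun J hJ F A hA => qCnd.up' (by linarith) hJ
    (hpos 1 J F A hA)⟩

/-- The number is at most the exponent of the number of values. -/
theorem CNum.le {S : PCl m} (hS : S.Ne) {M : ℝ}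
    (hM : Bas S (fun J F A => (cnt F.p (u J F) A : ℝ) ≤ Real.exp (M * J)))
    {θ : ℝ} (hθ : CNum S f g u y θ) : θ ≤ M := by
  by_contra hcon
  push Not at hcon
  have h1 := hθ.no (θ - M) (by linarith)
  have e : -θ + (θ - M) = -M := by ring
  rw [e] at h1
  exact bas_false hS (qCnd.lo f g u y hM) h1

/-- The number decreases if the visible variables are refined. -/
theorem CNum.anti {S : PCl m} (hS : S.Ne) {α' β' : ∀ J : ℕ, Fam m J → Type}
    {f' : ∀ (J : ℕ) (F : Fam m J), F.Ω → α' J F} {g' : ∀ (J : ℕ) (F : Fam m J), F.Ω → β' J F}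
    (hf : ∀ (J : ℕ) (F : Fam m J), ∃ φ : α' J F → α J F, ∀ ω, f J F ω = φ (f' J F ω))
    (hg : ∀ (J : ℕ) (F : Fam m J), ∃ φ : β' J F → β J F, ∀ ω, g J F ω = φ (g' J F ω))
    {θ θ' : ℝ} (hθ : CNum S f g u y θ) (hθ' : CNum S f' g' u y θ') : θ' ≤ θ := by
  by_contra hcon
  push Not at hcon
  have h1 := hθ.at' ((θ' - θ) / 2) (by linarith)
  have h2 := hθ'.no ((θ' - θ) / 2) (by linarith)
  have e : -θ' + (θ' - θ) / 2 = -θ - (θ' - θ) / 2 := by ring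
  rw [e] at h2
  refine bas_false hS (h1.mono 0 ?_) h2
  rintro J - F A ⟨V, z, h3, h4⟩
  obtain ⟨φ, hφ⟩ := hf J F
  obtain ⟨ψ, hψ⟩ := hg J F
  exact ⟨V, z, h3.mono ⟨φ, fun ω _ => hφ ω⟩ ⟨ψ, fun ω _ => hψ ω⟩, h4⟩

end one

/-- **The share of a cost.** -/
theorem cnum_share {S : PCl m} (hS : S.Ne)
    (hpos : ∀ (τ : ℝ) (J : ℕ) (F : Fam m J) (A : F.Ω → Prop), S.St τ J F A → 0 < Pe F.p A)
    (α β : ℕ → Q01 → ∀ J : ℕ, Fam m J → Type) (υ γ : ℕ → ∀ J : ℕ, Fam m J → Type)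
    (f : ∀ (k : ℕ) (w : Q01) (J : ℕ) (F : Fam m J), F.Ω → α k w J F)
    (g : ∀ (k : ℕ) (w : Q01) (J : ℕ) (F : Fam m J), F.Ω → β k w J F)
    (u : ∀ (k J : ℕ) (F : Fam m J), F.Ω → υ k J F) (y : ∀ (k J : ℕ) (F : Fam m J), F.Ω → γ k J F)
    (hf : ∀ (k : ℕ) (w w' : Q01), w ≤ w' → ∀ (J : ℕ) (F : Fam m J),
      ∃ φ : α k w' J F → α k w J F, ∀ ω, f k w J F ω = φ (f k w' J F ω))
    (hg : ∀ (k : ℕ) (w w' : Q01), w ≤ w' → ∀ (J : ℕ) (F : Fam m J),
      ∃ φ : β k w' J F → β k w J F, ∀ ω, g k w J F ω = φ (g k w' J F ω))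
    (M r : ℕ → ℝ) (hr : ∀ k, 0 < r k) (hs : Summable M)
    (hM : ∀ k, Bas S (fun J F A => (cnt F.p (u k J F) A : ℝ) ≤ Real.exp (M k * J))) :
    ∃ S' : PCl m, S'.Ne ∧
      (∀ (τ : ℝ) (J : ℕ) (F : Fam m J) (A : F.Ω → Prop), S'.St τ J F A → S.St τ J F A) ∧
      ∃ θ : ℕ → Q01 → ℝ, (∀ k w, CNum S' (f k w) (g k w) (u k) (y k) (θ k w)) ∧
        (∀ k, Antitone (θ k)) ∧ (∀ k w, 0 ≤ θ k w ∧ θ k w ≤ M k) ∧
        ∀ᵐ a : ℝ, a ∈ Set.Ioo (0 : ℝ) 1 → ∀ ε : ℝ, 0 < ε → ∃ k₀ : ℕ, ∀ k ≥ k₀,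
          ∀ w w' : Q01, a - r k ≤ ((w : ℚ) : ℝ) → ((w' : ℚ) : ℝ) ≤ a + r k →
            θ k w - θ k w' ≤ ε * r k := by
  classical
  have : Nonempty (ℕ × Q01) := ⟨(0, q1)⟩
  obtain ⟨e, he⟩ := exists_surjective_nat (ℕ × Q01)
  obtain ⟨S', hne, hsub, hnum⟩ := ext_cnd hS hpos (fun i => α (e i).1 (e i).2)
    (fun i => β (e i).1 (e i).2) (fun i => υ (e i).1) (fun i => γ (e i).1)
    (fun i => f (e i).1 (e i).2) (fun i => g (e i).1 (e i).2) (fun i => u (e i).1)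
    (fun i => y (e i).1) (fun i => M (e i).1) (fun i => hM (e i).1)
  choose η hη using hnum
  have hex : ∀ k w, ∃ θ, CNum S' (f k w) (g k w) (u k) (y k) θ := by
    intro k w
    obtain ⟨i, hi⟩ := he (k, w)
    have h1 := hη i
    refine ⟨η i, ?_⟩
    have h2 : (e i).1 = k := by rw [hi]
    have h3 : (e i).2 = w := by rw [hi]
    subst h2
    subst h3
    exact h1
  choose θ hθ using hex
  have hpos' : ∀ (τ : ℝ) (J : ℕ) (F : Fam m J) (A : F.Ω → Prop), S'.St τ J F A → 0 < Pe F.p A :=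
    fun τ J F A h => hpos τ J F A (hsub τ J F A h)
  have h0 : ∀ k w, 0 ≤ θ k w := fun k w => (hθ k w).nonneg hne hpos'
  have h1 : ∀ k w, θ k w ≤ M k := fun k w => (hθ k w).le hne ((hM k).sub hsub)
  have hanti : ∀ k, Antitone (θ k) := fun k w w' hw =>
    CNum.anti hne (hf k w w' hw) (hg k w w' hw) (hθ k w) (hθ k w')
  have hM0 : ∀ k, 0 ≤ M k := fun k => (h0 k q1).trans (h1 k q1)
  refine ⟨S', hne, hsub, θ, hθ, hanti, fun k w => ⟨h0 k w, h1 k w⟩, ?_⟩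
  -- the extension to the real levels
  obtain ⟨E, hE⟩ : ∃ E : ℕ → ℝ → Set ℝ, E = fun k x =>
    {t | t = 0 ∨ ∃ w : Q01, ((w : ℚ) : ℝ) ≤ x ∧ t = M k - θ k w} := ⟨_, rfl⟩
  have hEne : ∀ k x, (E k x).Nonempty := fun k x => ⟨0, by rw [hE]; exact Or.inl rfl⟩
  have hEM : ∀ k x t, t ∈ E k x → t ≤ M k := by
    rintro k x t ht
    rw [hE] at ht
    rcases ht with ht | ⟨w, -, ht⟩
    · rw [ht]; exact hM0 k
    · rw [ht]; linarith [h0 k w]
  have hEb : ∀ k x, BddAbove (E k x) := fun k x => ⟨M k, fun t ht => hEM k x t ht⟩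
  have hmono : ∀ k, Monotone fun x => sSup (E k x) := by
    intro k x x' hx
    refine csSup_le_csSup (hEb k x') (hEne k x) ?_
    intro t ht
    rw [hE] at ht ⊢
    rcases ht with ht | ⟨w, hw, ht⟩
    · exact Or.inl ht
    · exact Or.inr ⟨w, hw.trans hx, ht⟩
  have h2 := Pool.STR.share (f := fun k x => sSup (E k x)) hmono (M := M) (r := r)
    (fun k x => le_csSup (hEb k x) (by rw [hE]; exact Or.inl rfl))
    (fun k x => csSup_le (hEne k x) fun t ht => hEM k x t ht) hr hs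
  filter_upwards [h2] with a ha haI ε hε
  obtain ⟨k₀, hk₀⟩ := ha haI ε hε
  refine ⟨k₀, fun k hk w w' hw hw' => ?_⟩
  have h3 := hk₀ k hk
  have h4 : M k - θ k w' ≤ sSup (E k (a + r k)) := by
    refine le_csSup (hEb k _) ?_
    rw [hE]
    exact Or.inr ⟨w', hw', rfl⟩
  have h5 : sSup (E k (a - r k)) ≤ M k - θ k w := by
    refine csSup_le (hEne k _) ?_
    intro t ht
    rw [hE] at ht
    rcases ht with ht | ⟨v, hv, ht⟩
    · rw [ht]
      linarith [h1 k w]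
    · rw [ht]
      have h6 : v ≤ w := by
        have h7 : ((v : ℚ) : ℝ) ≤ ((w : ℚ) : ℝ) := hv.trans hw
        exact_mod_cast h7
      linarith [hanti k h6]
  linarith

/-! ### The digits of the direction -/

/-- The digits of the direction have few values. -/
theorem dir_cnt (m : ℕ) {q : ℝ} (hq : 0 < q) (S : PCl m) :
    Bas S (fun J F A => (cnt F.p (F.D ⌊q * J⌋₊) A : ℝ) ≤ Real.exp (m * q * J)) := by
  have hl : Real.log 2 < 0.6931471808 := Real.log_two_lt_d9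
  have hl0 : 0 < Real.log 2 := Real.log_pos (by norm_num)
  obtain ⟨J₁, hJ₁⟩ := exists_nat_ge (10 / q)
  refine ⟨1, one_pos, J₁, fun J hJ F A _ => ?_⟩
  have hJ' : (J₁ : ℝ) ≤ J := by exact_mod_cast hJ
  have h1 : 10 ≤ q * J := by
    have := hJ₁.trans hJ'
    rw [div_le_iff₀ hq] at this
    linarith
  obtain ⟨k, hk⟩ : ∃ k : ℕ, k = ⌊q * (J : ℝ)⌋₊ := ⟨_, rfl⟩
  show (cnt F.p (F.D ⌊q * (J : ℝ)⌋₊) A : ℝ) ≤ Real.exp (m * q * J)
  rw [← hk]
  have hkq : (k : ℝ) ≤ q * J := by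
    rw [hk]
    exact Nat.floor_le (by positivity)
  classical
  have h2 : cnt F.p (F.D k) A ≤ (2 ^ (k + 2)) ^ m := by
    have h3 : ∀ ω, F.D k ω ∈ Fintype.piFinset
        (fun _ : Fin m => Finset.Icc (-(2 ^ k : ℤ)) (2 ^ k)) := by
      intro ω
      rw [Fintype.mem_piFinset]
      intro i
      have h4 := abs_le.1 (F.dir ω i)
      have h5 : (0 : ℝ) < 2 ^ k := by positivity
      rw [Finset.mem_Icc]
      constructor
      · refine Int.le_floor.2 ?_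
        push_cast
        nlinarith
      · have h6 := Int.floor_le ((2 : ℝ) ^ k * F.d ω i)
        have h7 : ((⌊(2 : ℝ) ^ k * F.d ω i⌋ : ℤ) : ℝ) ≤ ((2 ^ k : ℤ) : ℝ) := by
          push_cast
          nlinarith
        have h8 : ⌊(2 : ℝ) ^ k * F.d ω i⌋ ≤ 2 ^ k := Int.cast_le.1 h7
        exact h8
    have h8 : cnt F.p (F.D k) A ≤ (Fintype.piFinset
        (fun _ : Fin m => Finset.Icc (-(2 ^ k : ℤ)) (2 ^ k))).card := by
      rw [← cset_card]
      refine card_le_card fun x hx => ?_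
      obtain ⟨ω, -, -, rfl⟩ := of_mem_cset hx
      exact h3 ω
    refine h8.trans ?_
    rw [Fintype.card_piFinset, Finset.prod_const, Finset.card_univ, Fintype.card_fin,
      Int.card_Icc]
    refine Nat.pow_le_pow_left ?_ m
    have h9 : ((2 : ℤ) ^ k + 1 - -(2 ^ k)).toNat = 2 ^ (k + 1) + 1 := by
      have : (2 : ℤ) ^ k + 1 - -(2 ^ k) = ((2 ^ (k + 1) + 1 : ℕ) : ℤ) := by
        push_cast
        ring
      rw [this, Int.toNat_natCast]
    rw [h9]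
    have h10 : 2 ^ (k + 2) = 2 ^ (k + 1) + 2 ^ (k + 1) := by ring
    have h11 : 1 ≤ 2 ^ (k + 1) := Nat.one_le_two_pow
    omega
  have h3 : (cnt F.p (F.D k) A : ℝ) ≤ (((2 ^ (k + 2)) ^ m : ℕ) : ℝ) := by exact_mod_cast h2
  refine h3.trans ?_
  push_cast
  rw [← pow_mul]
  have h4 : ((2 : ℝ)) ^ ((k + 2) * m) = Real.exp (((k + 2) * m : ℕ) * Real.log 2) := by
    rw [Real.exp_nat_mul, Real.exp_log (by norm_num)]
  rw [h4]
  refine Real.exp_le_exp.2 ?_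
  push_cast
  have hm : (0 : ℝ) ≤ m := Nat.cast_nonneg m
  have h5 : ((k : ℝ) + 2) * Real.log 2 ≤ q * J := by nlinarith
  calc ((k : ℝ) + 2) * m * Real.log 2 = m * (((k : ℝ) + 2) * Real.log 2) := by ring
    _ ≤ m * (q * J) := mul_le_mul_of_nonneg_left h5 hm
    _ = m * q * J := by ring

/-- The visible variables of the line are refined if the window shrinks. -/
theorem slam_fine {w w' : ℝ} (h : w ≤ w') (h1 : w' ≤ 1) (J : ℕ) (F : Fam m J) :
    ∃ φ : LnT F → LnT F, ∀ ω, slam F ⌊w * J⌋₊ ω = φ (slam F ⌊w' * J⌋₊ ω) := by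
  have hJ : (0 : ℝ) ≤ J := Nat.cast_nonneg J
  have e1 : ⌊w * (J : ℝ)⌋₊ ≤ ⌊w' * (J : ℝ)⌋₊ :=
    Nat.floor_le_floor (mul_le_mul_of_nonneg_right h hJ)
  have e2 : ⌊w' * (J : ℝ)⌋₊ ≤ J := by
    refine Nat.floor_le_of_le ?_
    calc w' * (J : ℝ) ≤ 1 * J := mul_le_mul_of_nonneg_right h1 hJ
      _ = J := one_mul _
  exact ⟨fun s => (s.1, s.2.1, s.2.2 / 2 ^ (⌊w' * (J : ℝ)⌋₊ - ⌊w * (J : ℝ)⌋₊)),
    fun ω => slam_coarse F e1 e2 ω⟩

/-- **The share of the digits of the direction.** The entropy of the first `q k J` digits of the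
direction given the best function of the exact point which is a function of the line in the window
of length `2 ^ (-w J)` is a number `θ k w`. For almost every level `a`, the windows in
`[a - r k, a + r k]` cost `o (r k)`. -/
theorem dir_share {S : PCl m} (hS : S.Ne)
    (hpos : ∀ (τ : ℝ) (J : ℕ) (F : Fam m J) (A : F.Ω → Prop), S.St τ J F A → 0 < Pe F.p A)
    (q r : ℕ → ℝ) (hq : ∀ k, 0 < q k) (hs : Summable q) (hr : ∀ k, 0 < r k) :
    ∃ S' : PCl m, S'.Ne ∧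
      (∀ (τ : ℝ) (J : ℕ) (F : Fam m J) (A : F.Ω → Prop), S'.St τ J F A → S.St τ J F A) ∧
      ∃ θ : ℕ → Q01 → ℝ, (∀ (k : ℕ) (w : Q01), CNum S' (fun J F => ptr F J)
          (fun J F => slam F ⌊((w : ℚ) : ℝ) * J⌋₊) (fun J F => F.D ⌊q k * J⌋₊)
          (fun _ _ _ => ()) (θ k w)) ∧
        (∀ k, Antitone (θ k)) ∧ (∀ k w, 0 ≤ θ k w ∧ θ k w ≤ m * q k) ∧
        ∀ᵐ a : ℝ, a ∈ Set.Ioo (0 : ℝ) 1 → ∀ ε : ℝ, 0 < ε → ∃ k₀ : ℕ, ∀ k ≥ k₀,
          ∀ w w' : Q01, a - r k ≤ ((w : ℚ) : ℝ) → ((w' : ℚ) : ℝ) ≤ a + r k →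
            θ k w - θ k w' ≤ ε * r k := by
  have h := cnum_share hS hpos (fun _ _ J F => PtT F) (fun _ _ J F => LnT F)
    (fun _ _ _ => Fin m → ℤ) (fun _ _ _ => Unit) (fun _ _ J F => ptr F J)
    (fun _ w J F => slam F ⌊((w : ℚ) : ℝ) * J⌋₊) (fun k J F => F.D ⌊q k * J⌋₊)
    (fun _ _ _ _ => ()) (fun _ _ _ _ J F => ⟨id, fun _ => rfl⟩)
    (fun _ w w' hw J F => slam_fine (by exact_mod_cast hw) (by exact_mod_cast w'.2.2) J F)
    (fun k => m * q k) r hr (hs.mul_left _) (fun k => dir_cnt m (hq k) S)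
  exact h

end Pool.RCD
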